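import Pool.Agent.Lib.helper24.SemiInf

set_option autoImplicit false

namespace Pool.Agent.Results.MP_cd9307_al.InfFB
open Pool.Agent.SemiInf

/-- Adjoining an element that is absorbing for both operations preserves the finite basis
property of a semiring. -/
theorem result : ∀ (S : Type) [AddCommSemigroup S] [Semigroup S] [LeftDistribClass S]
    [RightDistribClass S], FinBased S → FinBased (Inf S) :=
  fun S _ _ _ _ h => main S h

end Pool.Agent.Results.MP_cd9307_al.InfFB
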